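import Pool.Agent.TH454.BW.Unit3Asy

/-!
# Unit distances of point sets in space given by decision diagrams of small width

The points of Euclidean space of dimension three are named by the `n = 2 ^ m` strings of `m` bits,
in any way. If an ordered binary decision diagram with at most `w` nodes at each level, reading the
`2 m` bits of two names once each in some fixed order, decides whether two points have distance `1`,
then there are at most `4 w n log₂ n` unit distances. Hence the bound `O(n ^ (4 / 3) log log n)` of
the question holds for all sets with diagrams of width `n ^ (1 / 3) log log n / log n`, and sets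
with at least `c' n ^ (4 / 3)` unit distances have width `n ^ (1 / 3 - o(1))` at least.
-/

set_option autoImplicit false

namespace Pool.Agent.Results.MP_6cfeb2_co.DecisionDiagrams

open Pool.Agent.H607R2.BW Pool.Agent.TH454.BW

theorem result :
    -- (1) nondeterministic decision diagrams with at most `β` edges at each level
    (∀ (m β : ℕ) (P : Str m → EuclideanSpace ℝ (Fin 3)), Function.Injective P →
      HasNObdd β (fun x : Fin 2 → Str m => (unitGraph P).Adj (x 0) (x 1)) →
      Nat.card (unitGraph P).edgeSet ≤ 2 * (β * m * 2 ^ m)) ∧
    -- (2) decision diagrams with at most `w` nodes at each level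
    (∀ (m w : ℕ) (P : Str m → EuclideanSpace ℝ (Fin 3)), Function.Injective P →
      ObddWidth w (fun x : Fin 2 → Str m => (unitGraph P).Adj (x 0) (x 1)) →
      Nat.card (unitGraph P).edgeSet ≤ 4 * (w * m * 2 ^ m)) ∧
    -- (3) sets with `c' n ^ (4 / 3)` unit distances have width about `n ^ (1 / 3)` at least
    (∀ c c' : ℝ, 0 < c' → c < 1 / 3 →
      ∃ m₀ : ℕ, ∀ (m w : ℕ) (P : Str m → EuclideanSpace ℝ (Fin 3)), m₀ ≤ m →
        Function.Injective P →
        ObddWidth w (fun x : Fin 2 → Str m => (unitGraph P).Adj (x 0) (x 1)) →
        c' * ((2 : ℝ) ^ m) ^ (4 / 3 : ℝ) ≤ Nat.card (unitGraph P).edgeSet →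
        ((2 : ℝ) ^ m) ^ c < w) :=
  ⟨unit3_nobdd, unit3_obdd, fun c c' h h' => unit3_asy c c' h h'⟩

end Pool.Agent.Results.MP_6cfeb2_co.DecisionDiagrams
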